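import Pool.Agent.W712.WR.Stm

set_option autoImplicit false

namespace Pool.Agent.W515.WR

open Finset W712.WR

/-- sums over a longer range against the restricted one -/
lemma abs_pr_le (r n : ℕ) (hr : r ≤ n) (C B : ℝ) (hC : 0 ≤ C) (hB : 0 ≤ B) (ν τ : ℕ → ℝ)
    (hν : ∀ i, |ν i| ≤ C) (hτ : ∀ i < r, |τ i| ≤ B) :
    |∑ i ∈ range r, ν i * τ i| ≤ n * (C * B) := by
  calc |∑ i ∈ range r, ν i * τ i| ≤ ∑ i ∈ range r, |ν i * τ i| := abs_sum_le_sum_abs _ _
    _ ≤ ∑ i ∈ range r, C * B := by
        apply sum_le_sum
        intro i hi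
        rw [abs_mul]
        exact mul_le_mul (hν i) (hτ i (mem_range.mp hi)) (abs_nonneg _) hC
    _ = r * (C * B) := by rw [sum_const, card_range, nsmul_eq_mul]
    _ ≤ n * (C * B) := by
        apply mul_le_mul_of_nonneg_right _ (mul_nonneg hC hB)
        exact_mod_cast hr

theorem exists_nodes (hClaim : ClaimStm) (n : ℕ) (U D : Finset (ℕ → ℝ)) (C : ℝ) (hG : Good n D C)
    (hUD : U ⊆ D) :
    ∃ bp : ℕ → ℝ, bp 0 = 0 ∧ (∀ r, bp r + 1 ≤ bp (r + 1)) ∧
      ((0 < n → ∃ TA : Finset ((ℕ → ℝ) × (ℝ → ℝ)),
        Fam n U (-bp n) 0 (fun _ => 1) (fun _ => 1) (fun _ => 1) TA) ∧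
      ∀ r, r < n → ∃ TB : Finset ((ℕ → ℝ) × (ℝ → ℝ)),
        Fam n U (-bp n) r (fun i => if i = r then -1 else 0)
          (fun i => if i < r then -bp r else -bp (r + 1))
          (fun i => if i < r then 1 else -bp (r + 1)) TB) := by
  have hA : ∀ r, ∃ A : ℝ, 0 < A ∧ (r < n → ∀ (L : ℝ) (s a b : ℕ → ℝ) (ρ : ℝ),
      Inv D r A s a b ρ → (∀ i ≤ r, L ≤ a i) → ∃ T, Fam n U L r s a b T) := by
    intro r
    by_cases hr : r < n
    · obtain ⟨A, hA, h⟩ := hClaim n U D C hG hUD r hr
      exact ⟨A, hA, fun _ => h⟩
    · exact ⟨1, one_pos, fun h => absurd h hr⟩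
  choose A hApos hA using hA
  have hC1 := hG.one_le
  have hC0 : 0 < C := by linarith
  have hn0 : (0 : ℝ) ≤ n := Nat.cast_nonneg n
  obtain ⟨bp, hbp0, hbps⟩ : ∃ bp : ℕ → ℝ, bp 0 = 0 ∧ ∀ r, bp (r + 1) =
      C * (A r * (C * (n + 1) * (bp r + 1)) + C * n * (bp r + 1)) + bp r + 1 :=
    ⟨fun r => Nat.rec (motive := fun _ => ℝ) 0 (fun r y =>
      C * (A r * (C * (n + 1) * (y + 1)) + C * n * (y + 1)) + y + 1) r, rfl, fun r => rfl⟩
  have hnn : ∀ r, 0 ≤ bp r := by
    intro r
    induction r with
    | zero => rw [hbp0]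
    | succ r ih =>
      rw [hbps]
      have := (hApos r).le
      positivity
  have hstep : ∀ r, bp r + 1 ≤ bp (r + 1) := by
    intro r
    rw [hbps]
    have h1 := (hApos r).le
    have h2 := hnn r
    have : 0 ≤ C * (A r * (C * (n + 1) * (bp r + 1)) + C * n * (bp r + 1)) := by positivity
    linarith
  have hmono : Monotone bp := monotone_nat_of_le_succ (fun r => by linarith [hstep r])
  refine ⟨bp, hbp0, hstep, ?_, ?_⟩
  · intro hn
    refine hA 0 hn (-bp n) _ _ _ (1 / (C * A 0)) ?_ ?_
    · refine ⟨by have := hApos 0; positivity, ?_, ?_, fun i _ => le_refl _, fun i _ => ?_⟩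
      · intro ν hν hs h0 τ hτ
        have : ν 0 = 0 := by simpa [pr] using h0
        have h2 : pr (0 + 1) ν τ = 0 := by simp [pr, this]
        rw [h2, abs_zero]
        have := hApos 0; positivity
      · intro ν hν hs h0 τ hτ
        have h1 : 0 < ν 0 := by simpa [pr] using h0
        have h2 : τ 0 = 1 := le_antisymm (hτ 0 le_rfl).2 (hτ 0 le_rfl).1
        have h3 : pr (0 + 1) ν τ = ν 0 := by simp [pr, h2]
        rw [h3]
        have h4 := hG.lb ν hν 0 h1.ne'
        rw [abs_of_pos h1] at h4
        have h5 : A 0 * (1 / (C * A 0)) = 1 / C := by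
          have := (hApos 0).ne'
          field_simp
        rw [h5, div_le_iff₀ hC0]
        linarith
      · have := hApos 0
        have h : 0 < 1 / (C * A 0) := by positivity
        linarith
    · intro i _
      have := hnn n
      show -bp n ≤ 1
      linarith
  · intro r hr
    have hnr := hnn r
    have hAr := hApos r
    refine hA r hr (-bp n) _ _ _ (C * (n + 1) * (bp r + 1)) ?_ ?_
    · have key : ∀ ν ∈ D, ∀ τ : ℕ → ℝ, (∀ i ≤ r,
          (fun i => if i < r then -bp r else -bp (r + 1)) i ≤ τ i ∧
            τ i ≤ (fun i => if i < r then 1 else -bp (r + 1)) i) →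
          |∑ i ∈ range r, ν i * τ i| ≤ n * (C * (bp r + 1)) ∧ τ r = -bp (r + 1) := by
        intro ν hν τ hτ
        constructor
        · apply abs_pr_le r n hr.le C (bp r + 1) hC0.le (by linarith) ν τ (hG.bd ν hν)
          intro i hi
          have h1 := hτ i hi.le
          simp only [hi, if_true] at h1
          rw [abs_le]
          constructor <;> linarith [h1.1, h1.2]
        · have h1 := hτ r le_rfl
          simp only [lt_irrefl, if_false] at h1
          exact le_antisymm h1.2 h1.1
      have hsl : ∀ ν : ℕ → ℝ, pr (r + 1) ν (fun i => if i = r then -1 else 0) = -ν r := by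
        intro ν
        simp [pr]
      refine ⟨by positivity, ?_, ?_, ?_, ?_⟩
      · intro ν hν hs h0 τ hτ
        obtain ⟨h1, h2⟩ := key ν hν τ hτ
        rw [hsl] at h0
        have h3 : ν r = 0 := by linarith
        have h4 : pr (r + 1) ν τ = ∑ i ∈ range r, ν i * τ i := by
          rw [pr, sum_range_succ, h3, zero_mul, add_zero]
        rw [h4]
        refine h1.trans ?_
        have : 0 ≤ C * (bp r + 1) := by positivity
        nlinarith
      · intro ν hν hs h0 τ hτ
        obtain ⟨h1, h2⟩ := key ν hν τ hτ
        rw [hsl] at h0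
        have h3 : ν r < 0 := by linarith
        have h4 : pr (r + 1) ν τ = ∑ i ∈ range r, ν i * τ i + (-ν r) * bp (r + 1) := by
          rw [pr, sum_range_succ, h2]; ring
        rw [h4]
        have h5 := hG.lb ν hν r h3.ne
        rw [abs_of_neg h3] at h5
        have h6 := (abs_le.mp h1).1
        have h7 : bp (r + 1) / C ≤ (-ν r) * bp (r + 1) := by
          rw [div_le_iff₀ hC0]
          have := hnn (r + 1)
          nlinarith
        have h8 : A r * (C * (n + 1) * (bp r + 1)) + C * n * (bp r + 1) ≤ bp (r + 1) / C := by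
          rw [le_div_iff₀ hC0, hbps]
          nlinarith
        linarith
      · intro i hi
        by_cases h : i < r
        · simp only [h, if_true]; linarith
        · simp only [h, if_false]; exact le_rfl
      · intro i hi
        have h1 : bp r + 1 ≤ C * (n + 1) * (bp r + 1) := by
          have h2 : 1 ≤ C * (n + 1) := by nlinarith
          nlinarith
        by_cases h : i < r
        · simp only [h, if_true]; linarith
        · simp only [h, if_false]; linarith
    · intro i hi
      by_cases h : i < r
      · simp only [h, if_true]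
        have := hmono hr.le
        linarith
      · simp only [h, if_false]
        have := hmono (Nat.succ_le_of_lt hr)
        have h2 : bp (r + 1) ≤ bp n := this
        linarith

/-- the exponential decay used for the thresholds -/
lemma ev_small (C η β : ℝ) (hη : 0 < η) :
    ∀ᶠ R : ℝ in Filter.atTop, C * Real.exp (R * (-β - η)) ≤ Real.exp (-(R * β)) / 4 := by
  have h1 : Filter.Tendsto (fun R : ℝ => C * Real.exp (-(R * η))) Filter.atTop (nhds (C * 0)) := by
    apply Filter.Tendsto.const_mul
    apply Real.tendsto_exp_neg_atTop_nhds_zero.comp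
    exact Filter.tendsto_id.atTop_mul_const hη
  rw [mul_zero] at h1
  filter_upwards [h1.eventually_le_const (show (0 : ℝ) < 1 / 4 by norm_num)] with R hR
  have h2 : Real.exp (R * (-β - η)) = Real.exp (-(R * η)) * Real.exp (-(R * β)) := by
    rw [← Real.exp_add]; congr 1; ring
  rw [h2]
  have h3 := Real.exp_pos (-(R * β))
  nlinarith

theorem root (hClos : ClosStm) (hClaim : ClaimStm) : RootStm := by
  classical
  intro n U hn hU
  obtain ⟨D, C, hG, hUD⟩ := hClos n U hU
  obtain ⟨bp, hbp0, hstep, hTA, hTB⟩ := exists_nodes hClaim n U D C hG hUD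
  obtain ⟨TA, hTA⟩ := hTA hn
  have hTB' : ∀ r, ∃ TB : Finset ((ℕ → ℝ) × (ℝ → ℝ)), r < n →
      Fam n U (-bp n) r (fun i => if i = r then -1 else 0)
          (fun i => if i < r then -bp r else -bp (r + 1))
          (fun i => if i < r then 1 else -bp (r + 1)) TB := by
    intro r
    by_cases hr : r < n
    · obtain ⟨TB, h⟩ := hTB r hr
      exact ⟨TB, fun _ => h⟩
    · exact ⟨∅, fun h => absurd h hr⟩
  choose TB hTB using hTB'
  have hmono : Monotone bp := monotone_nat_of_le_succ (fun r => by linarith [hstep r])
  have hnn : ∀ r, 0 ≤ bp r := fun r => by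
    have := hmono (Nat.zero_le r)
    rw [hbp0] at this
    exact this
  have hpos : ∀ r, 0 < bp (r + 1) := fun r => by linarith [hstep r, hnn r]
  have hn1 : n - 1 + 1 = n := Nat.sub_add_cancel hn
  have hnR : (1 : ℝ) ≤ n := by exact_mod_cast hn
  obtain ⟨pA, hpA, hpA1, CA, ηA, hηA, hpA2⟩ := hTA.top
  have htop : ∀ r, ∃ (p : (ℕ → ℝ) × (ℝ → ℝ)) (Cr η : ℝ), 0 < η ∧ (r < n → p ∈ TB r ∧
      (∀ i, r ≤ i → i < n → p.1 i = -1) ∧
      ∀ R, 0 ≤ R → p.2 R ≤ Cr * Real.exp (R * (-bp (r + 1) - η))) := by
    intro r
    by_cases hr : r < n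
    · obtain ⟨p, hp, hp1, Cr, η, hη, hp2⟩ := (hTB r hr).top
      refine ⟨p, Cr, η, hη, fun _ => ⟨hp, ?_, ?_⟩⟩
      · intro i h1 h2
        have := hp1 i h1 h2
        simpa using this
      · intro R hR
        have := hp2 R hR
        simpa using this
    · exact ⟨pA, 0, 1, one_pos, fun h => absurd h hr⟩
  choose pB CB ηB hηB hB using htop
  -- the family
  set T : Finset ((ℕ → ℝ) × (ℝ → ℝ)) :=
    TA.image (fun q => (q.1, fun R => Real.exp R + q.2 R)) ∪
    (range n).biUnion (fun r => (TB r).image
      (fun q => (q.1, fun R => -Real.exp (-(R * bp (r + 1))) + q.2 R))) with hT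
  have memA : ∀ q ∈ TA, ((q.1, fun R => Real.exp R + q.2 R) : (ℕ → ℝ) × (ℝ → ℝ)) ∈ T := by
    intro q hq
    rw [hT]
    exact mem_union_left _ (mem_image_of_mem _ hq)
  have memB : ∀ r < n, ∀ q ∈ TB r,
      ((q.1, fun R => -Real.exp (-(R * bp (r + 1))) + q.2 R) : (ℕ → ℝ) × (ℝ → ℝ)) ∈ T := by
    intro r hr q hq
    rw [hT]
    refine mem_union_right _ (mem_biUnion.mpr ⟨r, mem_range.mpr hr, ?_⟩)
    exact mem_image.mpr ⟨q, hq, rfl⟩
  have memT : ∀ p ∈ T, (∃ q ∈ TA, p = (q.1, fun R => Real.exp R + q.2 R)) ∨
      ∃ r < n, ∃ q ∈ TB r, p = (q.1, fun R => -Real.exp (-(R * bp (r + 1))) + q.2 R) := by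
    intro p hp
    rw [hT] at hp
    rcases mem_union.mp hp with h | h
    · obtain ⟨q, hq, h⟩ := mem_image.mp h
      exact Or.inl ⟨q, hq, h.symm⟩
    · obtain ⟨r, hr, h⟩ := mem_biUnion.mp h
      obtain ⟨q, hq, h⟩ := mem_image.mp h
      exact Or.inr ⟨r, mem_range.mp hr, q, hq, h.symm⟩
  -- the slopes of the families
  have slA : ∀ q ∈ TA, ∀ i < n, q.1 i ≤ 1 := by
    intro q hq i hi
    have h1 := hTA.anti q hq 0 i le_rfl (Nat.zero_le i) hi
    have h2 := hTA.pre q hq 0 le_rfl
    rw [h2] at h1
    exact h1
  have slB0 : ∀ r < n, ∀ q ∈ TB r, ∀ i < r, q.1 i = 0 := by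
    intro r hr q hq i hi
    have h2 := (hTB r hr).pre q hq i hi.le
    rw [h2]
    simp [hi.ne]
  have slBr : ∀ r < n, ∀ q ∈ TB r, q.1 r = -1 := by
    intro r hr q hq
    have h2 := (hTB r hr).pre q hq r le_rfl
    rw [h2]
    simp
  have slB : ∀ r < n, ∀ q ∈ TB r, ∀ i < n, q.1 i ≤ 0 := by
    intro r hr q hq i hi
    by_cases h : i < r
    · rw [slB0 r hr q hq i h]
    · have h1 := (hTB r hr).anti q hq r i le_rfl (not_lt.mp h) hi
      rw [slBr r hr q hq] at h1
      linarith
  -- the a priori bounds
  have core : ∀ᶠ R : ℝ in Filter.atTop, 0 ≤ R ∧ ∀ x : ℕ → ℝ,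
      (∀ i j, i ≤ j → j < n → x j ≤ x i) →
      (∀ p ∈ T, pr n p.1 x - p.2 R ≤ Real.exp (R * (-bp n)) / 4) →
      Real.exp (R * (-bp n)) / 2 ≤ x (n - 1) ∧
      ∑ i ∈ range n, x i ≤ (2 + |CA|) * Real.exp R ∧
      ∀ r < n, Real.exp (-(R * bp (r + 1))) / 2 ≤ n * x r := by
    have hev : ∀ᶠ R : ℝ in Filter.atTop, ∀ r ∈ range n,
        CB r * Real.exp (R * (-bp (r + 1) - ηB r)) ≤ Real.exp (-(R * bp (r + 1))) / 4 := by
      rw [Filter.eventually_all_finset]
      intro r _
      exact ev_small _ _ _ (hηB r)
    filter_upwards [Filter.eventually_ge_atTop (0 : ℝ), hev] with R hR hev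
    refine ⟨hR, ?_⟩
    intro x hx hval
    have hLle : ∀ r < n, Real.exp (R * (-bp n)) ≤ Real.exp (-(R * bp (r + 1))) := by
      intro r hr
      apply Real.exp_le_exp.mpr
      have : bp (r + 1) ≤ bp n := hmono hr
      nlinarith
    have hvB : ∀ r < n, pr n (pB r).1 x + Real.exp (-(R * bp (r + 1))) / 2 ≤ 0 := by
      intro r hr
      obtain ⟨h1, h2, h3⟩ := hB r hr
      have h4 := hval _ (memB r hr _ h1)
      have h5 := h3 R hR
      have h6 := hev r (mem_range.mpr hr)
      have h7 := hLle r hr
      simp only at h4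
      linarith
    have hlast : Real.exp (R * (-bp n)) / 2 ≤ x (n - 1) := by
      have h1 := hvB (n - 1) (by omega)
      have h2 : pr n (pB (n - 1)).1 x = - x (n - 1) := by
        rw [pr, sum_eq_single (n - 1)]
        · rw [slBr (n - 1) (by omega) _ (hB (n - 1) (by omega)).1]; ring
        · intro i hi hne
          rw [slB0 (n - 1) (by omega) _ (hB (n - 1) (by omega)).1 i
            (by have := mem_range.mp hi; omega), zero_mul]
        · intro h
          exact absurd (mem_range.mpr (by omega)) h
      rw [h2, hn1] at h1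
      have h3 : R * (-bp n) = -(R * bp n) := by ring
      rw [h3]
      linarith
    have hxpos : ∀ i < n, 0 < x i := by
      intro i hi
      have h1 := hx i (n - 1) (by omega) (by omega)
      have h2 := Real.exp_pos (R * (-bp n))
      linarith
    refine ⟨hlast, ?_, ?_⟩
    · have h1 := hval _ (memA _ hpA)
      have h2 : pr n pA.1 x = ∑ i ∈ range n, x i := by
        apply sum_congr rfl
        intro i hi
        rw [hpA1 i (Nat.zero_le _) (mem_range.mp hi), one_mul]
      simp only at h1
      rw [h2] at h1
      have h3 := hpA2 R hR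
      have h4 : Real.exp (R * (1 - ηA)) ≤ Real.exp R := by
        apply Real.exp_le_exp.mpr
        nlinarith
      have h5 : CA * Real.exp (R * (1 - ηA)) ≤ |CA| * Real.exp R := by
        calc CA * Real.exp (R * (1 - ηA)) ≤ |CA| * Real.exp (R * (1 - ηA)) :=
              mul_le_mul_of_nonneg_right (le_abs_self _) (Real.exp_pos _).le
          _ ≤ |CA| * Real.exp R := mul_le_mul_of_nonneg_left h4 (abs_nonneg _)
      have h6 : Real.exp (R * (-bp n)) ≤ Real.exp R := by
        apply Real.exp_le_exp.mpr
        have := hnn n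
        nlinarith
      have h7 := Real.exp_pos R
      linarith
    · intro r hr
      have h1 := hvB r hr
      have h2 : -(n * x r) ≤ pr n (pB r).1 x := by
        have h3 : -((n : ℝ) * x r) = ∑ i ∈ range n, (- x r) := by
          rw [sum_const, card_range, nsmul_eq_mul]; ring
        rw [h3]
        apply sum_le_sum
        intro i hi
        have hi := mem_range.mp hi
        by_cases h : i < r
        · rw [slB0 r hr _ (hB r hr).1 i h, zero_mul]
          have := hxpos r hr
          linarith
        · rw [(hB r hr).2.1 i (not_lt.mp h) hi]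
          have := hx r i (not_lt.mp h) hi
          linarith
      linarith
  refine ⟨T, fun R => Real.exp (R * (-bp n)) / 4, fun R => (2 + |CA|) * Real.exp R + 1,
    by fun_prop, by fun_prop, fun R => by positivity, ?_, ?_, ?_, ?_, ?_⟩
  · -- smoothness
    intro p hp
    rcases memT p hp with ⟨q, hq, rfl⟩ | ⟨r, hr, q, hq, rfl⟩
    · have := hTA.smooth q hq
      exact Real.contDiff_exp.add this
    · have := (hTB r hr).smooth q hq
      refine ContDiff.add ?_ this
      fun_prop
  · -- antitone
    intro p hp i j hij hj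
    rcases memT p hp with ⟨q, hq, rfl⟩ | ⟨r, hr, q, hq, rfl⟩
    · exact hTA.anti q hq i j (Nat.zero_le _) hij hj
    · show q.1 j ≤ q.1 i
      by_cases h : i < r
      · rw [slB0 r hr q hq i h]
        exact slB r hr q hq j hj
      · exact (hTB r hr).anti q hq i j (not_lt.mp h) hij hj
  · -- exhaustion
    intro m K hm
    have hev : ∀ᶠ R : ℝ in Filter.atTop, ∀ r ∈ range n, Real.exp (-(R * bp (r + 1))) < m := by
      rw [Filter.eventually_all_finset]
      intro r _
      have h1 : Filter.Tendsto (fun R : ℝ => Real.exp (-(R * bp (r + 1)))) Filter.atTop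
          (nhds 0) := by
        apply Real.tendsto_exp_neg_atTop_nhds_zero.comp
        exact Filter.tendsto_id.atTop_mul_const (hpos r)
      exact h1.eventually_lt_const hm
    have hev2 : ∀ᶠ R : ℝ in Filter.atTop, n * K < Real.exp R :=
      Real.tendsto_exp_atTop.eventually_gt_atTop _
    obtain ⟨R0, hR0⟩ := Filter.eventually_atTop.mp
      ((Filter.eventually_ge_atTop (0 : ℝ)).and (hev.and hev2))
    refine ⟨R0, fun R hR x hx p hp => ?_⟩
    obtain ⟨h0, h1, h2⟩ := hR0 R hR
    rcases memT p hp with ⟨q, hq, rfl⟩ | ⟨r, hr, q, hq, rfl⟩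
    · have h3 := hTA.nonneg q hq R h0
      have h4 : pr n q.1 x ≤ n * K := by
        calc pr n q.1 x ≤ ∑ i ∈ range n, K := by
              apply sum_le_sum
              intro i hi
              have hi := mem_range.mp hi
              have := slA q hq i hi
              have hxi := hx i hi
              nlinarith
          _ = n * K := by rw [sum_const, card_range, nsmul_eq_mul]
      show pr n q.1 x < Real.exp R + q.2 R
      linarith
    · have h3 := (hTB r hr).nonneg q hq R h0
      have h4 : pr n q.1 x ≤ q.1 r * x r := by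
        rw [pr, ← sum_erase_add _ _ (mem_range.mpr hr)]
        have h5 : ∑ i ∈ (range n).erase r, q.1 i * x i ≤ 0 := by
          apply sum_nonpos
          intro i hi
          have hi := mem_range.mp (mem_of_mem_erase hi)
          have h6 := slB r hr q hq i hi
          have h7 := (hx i hi).1
          nlinarith
        linarith
      rw [slBr r hr q hq] at h4
      have h5 := h1 r (mem_range.mpr hr)
      have h6 := (hx r hr).1
      show pr n q.1 x < -Real.exp (-(R * bp (r + 1))) + q.2 R
      linarith
  · -- bounds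
    obtain ⟨R0, hR0⟩ := Filter.eventually_atTop.mp core
    refine ⟨R0, fun R hR x hx hval j hj => ?_⟩
    obtain ⟨h0, h1⟩ := hR0 R hR
    obtain ⟨h2, h3, h4⟩ := h1 x hx hval
    have hE := Real.exp_pos (R * (-bp n))
    have hxpos : ∀ i < n, 0 < x i := by
      intro i hi
      have h5 := hx i (n - 1) (by omega) (by omega)
      linarith
    constructor
    · have h5 := hx j (n - 1) (by omega) (by omega)
      show Real.exp (R * (-bp n)) / 4 ≤ x j
      linarith
    · have h5 : x j ≤ ∑ i ∈ range n, x i :=
        single_le_sum (fun i hi => (hxpos i (mem_range.mp hi)).le) (mem_range.mpr hj)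
      show x j ≤ (2 + |CA|) * Real.exp R + 1
      linarith
  · -- the main clause
    intro δ
    set Cs : ℝ := 2 * n + 2 + |CA| with hCs
    have hCA := abs_nonneg CA
    have hCs1 : 1 ≤ Cs := by rw [hCs]; linarith
    obtain ⟨RA, hRA⟩ := hTA.main Cs δ hCs1
    have hRB' : ∀ r, ∃ RB : ℝ, r < n → ∀ R, RB ≤ R → ∀ x : ℕ → ℝ, Srt n x →
      (∀ i ≤ r, Real.exp (R * (fun i => if i < r then -bp r else -bp (r + 1)) i) / Cs ≤ x i ∧
        x i ≤ Cs * Real.exp (R * (fun i => if i < r then 1 else -bp (r + 1)) i)) →
      Real.exp (R * (-bp n)) / Cs ≤ x (n - 1) →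
      ∀ p ∈ TB r, (∀ q ∈ TB r, pr n q.1 x - q.2 R ≤ pr n p.1 x - p.2 R) →
        ∀ u ∈ U, 0 < pr n p.1 u → δ < ∑ i ∈ range n, u i * Real.log (x i) := by
      intro r
      by_cases hr : r < n
      · obtain ⟨RB, hRB⟩ := (hTB r hr).main Cs δ hCs1
        exact ⟨RB, fun _ => hRB⟩
      · exact ⟨0, fun h => absurd h hr⟩
    choose RB hRB using hRB'
    have hevB : ∀ᶠ R : ℝ in Filter.atTop, ∀ r ∈ range n, RB r ≤ R := by
      rw [Filter.eventually_all_finset]
      intro r _
      exact Filter.eventually_ge_atTop _
    obtain ⟨R0, hR0⟩ := Filter.eventually_atTop.mp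
      (core.and (hevB.and (Filter.eventually_ge_atTop RA)))
    refine ⟨R0, fun R hR x hx p hp hmax hv0 hvc => ?_⟩
    obtain ⟨⟨h0, h1⟩, hRBR, hRAR⟩ := hR0 R hR
    obtain ⟨hlast, hsum, hrr⟩ := h1 x hx (fun q hq => (hmax q hq).trans hvc)
    have hE := Real.exp_pos (R * (-bp n))
    have hxpos : ∀ i < n, 0 < x i := by
      intro i hi
      have h5 := hx i (n - 1) (by omega) (by omega)
      linarith
    have hsrt : Srt n x := ⟨hxpos, hx⟩
    have hCpos : 0 < Cs := by linarith
    have hx0 : x 0 ≤ Cs * Real.exp R := by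
      have h5 : x 0 ≤ ∑ i ∈ range n, x i :=
        single_le_sum (fun i hi => (hxpos i (mem_range.mp hi)).le) (mem_range.mpr hn)
      have h6 := Real.exp_pos R
      have h7 : (2 + |CA|) * Real.exp R ≤ Cs * Real.exp R :=
        mul_le_mul_of_nonneg_right (by rw [hCs]; linarith) h6.le
      linarith
    have hlast' : Real.exp (R * (-bp n)) / Cs ≤ x (n - 1) := by
      refine le_trans ?_ hlast
      exact div_le_div_of_nonneg_left hE.le (by norm_num) (by rw [hCs]; linarith)
    rcases memT p hp with ⟨q, hq, rfl⟩ | ⟨r, hr, q, hq, rfl⟩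
    · simp only at hmax hv0 hvc
      refine hRA R hRAR x hsrt ?_ hlast' q hq ?_
      · intro i hi
        have hi0 : i = 0 := Nat.le_zero.mp hi
        subst hi0
        constructor
        · have h5 : pr n q.1 x ≤ n * x 0 := by
            calc pr n q.1 x ≤ ∑ i ∈ range n, x 0 := by
                  apply sum_le_sum
                  intro i hi
                  have hi := mem_range.mp hi
                  have h6 := slA q hq i hi
                  have h7 := hxpos i hi
                  have h8 := hx 0 i (Nat.zero_le _) hi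
                  nlinarith
              _ = n * x 0 := by rw [sum_const, card_range, nsmul_eq_mul]
          have h6 := hTA.nonneg q hq R h0
          show Real.exp (R * 1) / Cs ≤ x 0
          rw [mul_one, div_le_iff₀ hCpos]
          have h7 : n * x 0 ≤ x 0 * Cs := by
            rw [hCs]
            have := hxpos 0 hn
            nlinarith
          linarith
        · show x 0 ≤ Cs * Real.exp (R * 1)
          rw [mul_one]
          exact hx0
      · intro q' hq'
        have := hmax _ (memA q' hq')
        simp only at this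
        linarith
    · simp only at hmax hv0 hvc
      refine hRB r hr R (hRBR r (mem_range.mpr hr)) x hsrt ?_ hlast' q hq ?_
      · intro i hi
        by_cases hir : i < r
        · simp only [hir, if_true]
          constructor
          · have h5 := hrr (r - 1) (by omega)
            have h6 : r - 1 + 1 = r := by omega
            rw [h6] at h5
            have h7 := hx i (r - 1) (by omega) (by omega)
            rw [div_le_iff₀ hCpos]
            have h8 : R * -bp r = -(R * bp r) := by ring
            rw [h8]
            have h9 := hxpos i (by omega)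
            have h10 : n * x (r - 1) ≤ n * x i := by
              apply mul_le_mul_of_nonneg_left h7; linarith
            have h11 : 2 * (n * x i) ≤ x i * Cs := by
              rw [hCs]
              nlinarith
            linarith
          · rw [mul_one]
            exact (hx 0 i (Nat.zero_le _) (by omega)).trans hx0
        · have hir' : i = r := by omega
          subst hir'
          simp only [lt_irrefl, if_false]
          have h8 : R * -bp (i + 1) = -(R * bp (i + 1)) := by ring
          rw [h8]
          constructor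
          · have h5 := hrr i hr
            rw [div_le_iff₀ hCpos]
            have h9 := hxpos i hr
            have h11 : 2 * (n * x i) ≤ x i * Cs := by
              rw [hCs]
              nlinarith
            linarith
          · have h4 : pr n q.1 x ≤ q.1 i * x i := by
              rw [pr, ← sum_erase_add _ _ (mem_range.mpr hr)]
              have h5 : ∑ j ∈ (range n).erase i, q.1 j * x j ≤ 0 := by
                apply sum_nonpos
                intro j hj
                have hj := mem_range.mp (mem_of_mem_erase hj)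
                have h6 := slB i hr q hq j hj
                have h7 := hxpos j hj
                nlinarith
              linarith
            rw [slBr i hr q hq] at h4
            have h6 := (hTB i hr).nonneg q hq R h0
            have h7 := Real.exp_pos (-(R * bp (i + 1)))
            nlinarith
      · intro q' hq'
        have := hmax _ (memB r hr q' hq')
        simp only at this
        linarith

end Pool.Agent.W515.WR
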